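import Pool.Agent.Q251.TG.Nest

/-!
# Project TG, job EAR1: ears are short
-/

set_option autoImplicit false

namespace Pool.Agent.Q251.TG

open Pool.Agent.Q181.BD Pool.Agent.Q181.TG

section map

variable {V : Type} {W : V → V → ℤ} {z : ℤ → V} {Q : Equiv.Perm V} {m : ℤ}
  (hW : ∀ x y, W (Q x) (Q y) = W x y) (hz : ∀ j, Q (z j) = z (j + m))

include hz in
theorem offs_map {u : V} (h : u ∈ Offs z) : Q u ∈ Offs z := by
  intro i hi
  have h1 := hz (i - m)
  rw [sub_add_cancel, hi] at h1
  exact h (i - m) (Q.injective h1)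

include hW hz in
theorem ci_map {u w : V} (h : CI W (Offs z) u w) : CI W (Offs z) (Q u) (Q w) := by
  unfold CI at h ⊢
  refine Relation.ReflTransGen.lift Q ?_ u w h
  rintro a b ⟨e, ha, hb⟩
  exact ⟨by rwa [hW], offs_map hz ha, offs_map hz hb⟩

include hW hz in
theorem ear_map {a b : ℤ} (h : Ear W z a b) : Ear W z (a + m) (b + m) := by
  rcases h with h | ⟨u, w, hu, hw, h1, h2, h3⟩
  · left
    rw [← hz, ← hz, hW]
    exact h
  · right
    refine ⟨Q u, Q w, offs_map hz hu, offs_map hz hw, ?_, ci_map hW hz h2, ?_⟩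
    · rw [← hz, hW]
      exact h1
    · rw [← hz, hW]
      exact h3

end map

theorem t_ear1 : S_ear1 := by
  intro V W T hS z d L hP hfin
  have hz2 : ∀ j, (T ^ (-d)) (z j) = z (j + -(L : ℤ)) := by
    intro j
    have := hP.per (j + -(L : ℤ))
    rw [neg_add_cancel_right] at this
    rw [← this, zz, neg_add_cancel, zpow_zero, Equiv.Perm.one_apply]
  have hiff : ∀ a b, Ear W z a b ↔ Ear W z (a + L) (b + L) := by
    intro a b
    constructor
    · exact ear_map (inv_zpow hS d) hP.per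
    · intro h
      have := ear_map (inv_zpow hS (-d)) hz2 h
      rwa [add_neg_cancel_right, add_neg_cancel_right] at this
  refine ⟨hiff, ?_⟩
  have hn : ∀ (n a b : ℤ), Ear W z a b ↔ Ear W z (a + n * L) (b + n * L) := by
    intro n a b
    induction n using Int.induction_on with
    | zero => simp
    | succ n ih =>
      rw [ih, hiff]
      rw [show a + ((n : ℤ) + 1) * L = a + (n : ℤ) * L + L by ring,
        show b + ((n : ℤ) + 1) * L = b + (n : ℤ) * L + L by ring]
    | pred n ih =>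
      rw [ih, hiff (a + (-(n : ℤ) - 1) * L)]
      rw [show a + (-(n : ℤ) - 1) * L + L = a + -(n : ℤ) * L by ring,
        show b + (-(n : ℤ) - 1) * L + L = b + -(n : ℤ) * L by ring]
  have hfa : ∀ a, {b | Ear W z a b}.Finite := by
    intro a
    have h1 : ({y | W (z a) y ≠ 0} ∪ ⋃ u ∈ {u | W (z a) u ≠ 0}, ⋃ w ∈ {w | u ∈ Offs z ∧ CI W (Offs z) u w},
        {y | W w y ≠ 0}).Finite := by
      refine (hS.fin _).union ((hS.fin _).biUnion fun u _ => Set.Finite.biUnion ?_ fun w _ => hS.fin w)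
      by_cases hu : u ∈ Offs z
      · exact (hfin u hu).subset fun w hw => hw.2
      · exact Set.Finite.subset Set.finite_empty fun w hw => absurd hw.1 hu
    refine (h1.preimage hP.inj.injOn).subset ?_
    rintro b (h | ⟨u, w, hu, hw, h1, h2, h3⟩)
    · exact Or.inl h
    · right
      simp only [Set.mem_iUnion]
      exact ⟨u, h1, w, ⟨hu, h2⟩, h3⟩
  have hF : (⋃ r ∈ Set.Ico (0 : ℤ) L, (fun b => b - r) '' {b | Ear W z r b}).Finite :=
    (Set.finite_Ico _ _).biUnion fun r _ => (hfa r).image _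
  obtain ⟨D, hD⟩ := hF.bddAbove
  refine ⟨D, fun a b hab => ?_⟩
  have hL : (0 : ℤ) < L := by
    have := hP.pos
    omega
  have h1 := (hn (-(a / L)) a b).1 hab
  have h2 : a + -(a / L) * L = a % L := by
    have := Int.mul_ediv_add_emod a L
    linarith
  rw [h2] at h1
  have h3 : (b + -(a / L) * L) - a % L ∈ (⋃ r ∈ Set.Ico (0 : ℤ) L, (fun b => b - r) '' {b | Ear W z r b}) := by
    simp only [Set.mem_iUnion]
    exact ⟨a % L, ⟨Int.emod_nonneg _ hL.ne', Int.emod_lt_of_pos _ hL⟩, _, h1, rfl⟩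
  have h4 := hD h3
  have h5 := Int.mul_ediv_add_emod a L
  linarith

end Pool.Agent.Q251.TG
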