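import Pool.Agent.Q181.TG.Stm1

/-!
# Project TG, job NEST: the height
-/

set_option autoImplicit false

namespace Pool.Agent.Q251.TG

open Pool.Agent.Q181.BD Pool.Agent.Q181.TG

theorem inv_zpow {V : Type} {W : V → V → ℤ} {T : Equiv.Perm V} (hS : Strip W T) (n : ℤ) (x y : V) :
    W ((T ^ n) x) ((T ^ n) y) = W x y := by
  induction n using Int.induction_on generalizing x y with
  | zero => simp
  | succ n ih =>
    rw [zpow_add_one, Equiv.Perm.mul_apply, Equiv.Perm.mul_apply, ih, hS.inv]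
  | pred n ih =>
    rw [zpow_sub_one, Equiv.Perm.mul_apply, Equiv.Perm.mul_apply, ih]
    have h := hS.inv (T⁻¹ x) (T⁻¹ y)
    have e : ∀ x, T (T⁻¹ x) = x := fun x => by
      rw [← Equiv.Perm.mul_apply, mul_inv_cancel, Equiv.Perm.one_apply]
    rw [e, e] at h
    exact h.symm

theorem zz {V : Type} (T : Equiv.Perm V) (m n : ℤ) (x : V) : (T ^ m) ((T ^ n) x) = (T ^ (m + n)) x := by
  rw [zpow_add, Equiv.Perm.mul_apply]

section nest

variable {V : Type} {W : V → V → ℤ} {T : Equiv.Perm V} (hS : Strip W T) {v : V} {Lf : Set V}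
  (h2 : ∀ x y, W x y ≠ 0 → x ≠ v → y ≠ v → (x ∈ Lf ↔ y ∈ Lf))

include hS h2

theorem edge (k : ℤ) {x y : V} (hxy : W x y ≠ 0) (hx : x ≠ (T ^ k) v) (hy : y ≠ (T ^ k) v) :
    ((T ^ (-k)) x ∈ Lf ↔ (T ^ (-k)) y ∈ Lf) := by
  apply h2
  · rwa [inv_zpow hS]
  · intro h
    apply hx
    rw [← h, zz, add_neg_cancel, zpow_zero, Equiv.Perm.one_apply]
  · intro h
    apply hy
    rw [← h, zz, add_neg_cancel, zpow_zero, Equiv.Perm.one_apply]

theorem conn_const (k : ℤ) {S : Set V} (hv : (T ^ k) v ∉ S) {x y : V} (h : CI W S x y) :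
    ((T ^ (-k)) x ∈ Lf ↔ (T ^ (-k)) y ∈ Lf) := by
  induction h with
  | refl => rfl
  | tail _ hbc ih =>
    obtain ⟨e, hb, hc⟩ := hbc
    exact ih.trans (edge hS h2 k e (fun h => hv (h ▸ hb)) (fun h => hv (h ▸ hc)))

end nest

theorem t_nest : S_nest := by
  intro V W T hS v Lf h1 h2 h3 h4 h5
  have ha : (T ^ (1 : ℤ)) v ∉ Lf := by
    intro hTv
    have hU : ∀ x, x ∉ Lf → (T ^ (-1 : ℤ)) x ∉ Lf := by
      intro x hx
      have e1 := conn_const hS h2 1 (S := Lfᶜ) (fun h => h hTv) (h5 x hx)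
      obtain ⟨N, hN⟩ := h3 v
      have e2 := (hN (N + 1) (by omega)).2
      have e3 := (hN N le_rfl).2
      have e4 := conn_const hS h2 1 (S := Lfᶜ) (fun h => h hTv) (h5 _ e2)
      rw [zz, show (-1 + ((N + 1 : ℕ) : ℤ)) = (N : ℤ) by push_cast; ring] at e4
      rw [e1, ← e4]
      exact e3
    have hall : ∀ n : ℕ, (T ^ (-(n : ℤ))) v ∉ Lf := by
      intro n
      induction n with
      | zero => simpa using h1
      | succ n ih =>
        have := hU _ ih
        rw [zz] at this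
        rwa [show -((n + 1 : ℕ) : ℤ) = -1 + -(n : ℤ) by push_cast; ring]
    obtain ⟨N, hN⟩ := h3 v
    exact hall N (hN N le_rfl).1
  have hb : ∀ x, x ∈ insert v Lf → (T ^ (-1 : ℤ)) x ∈ Lf := by
    have hT : (T ^ (1 : ℤ)) v ∉ insert v Lf := by
      rintro (h | h)
      · exact one_ne_zero (hS.free 1 v h)
      · exact ha h
    have hc : ∀ x, x ∈ insert v Lf → ((T ^ (-1 : ℤ)) x ∈ Lf ↔ (T ^ (-1 : ℤ)) v ∈ Lf) := by
      rintro x (hx | hx)
      · rw [hx]
      · exact conn_const hS h2 1 hT (h4 x hx)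
    obtain ⟨N, hN⟩ := h3 v
    have e1 := (hN N le_rfl).1
    have e2 := (hN (N + 1) (by omega)).1
    have e3 := hc _ (Or.inr e1)
    rw [zz, show (-1 + -(N : ℤ)) = -((N + 1 : ℕ) : ℤ) by push_cast; ring] at e3
    intro x hx
    exact (hc x hx).2 (e3.1 e2)
  have hmono : ∀ (k : ℤ) x, (T ^ (-k)) x ∈ Lf → (T ^ (-(k + 1))) x ∈ Lf := by
    intro k x h
    have := hb _ (Or.inr h)
    rwa [zz, show (-1 + -k) = -(k + 1) by ring] at this
  have hmono' : ∀ (k l : ℤ) x, k ≤ l → (T ^ (-k)) x ∈ Lf → (T ^ (-l)) x ∈ Lf := by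
    intro k l x hkl h
    obtain ⟨n, hn⟩ := Int.le.dest hkl
    have key : ∀ n : ℕ, (T ^ (-(k + (n : ℤ)))) x ∈ Lf := by
      intro n
      induction n with
      | zero => simpa using h
      | succ n ih =>
        have := hmono _ x ih
        rwa [show k + ((n + 1 : ℕ) : ℤ) = k + (n : ℤ) + 1 by push_cast; ring]
    rw [← hn]
    exact key n
  have hex : ∀ x, ∃ k : ℤ, (T ^ (-k)) x ∉ Lf ∧ ∀ j : ℤ, (T ^ (-j)) x ∉ Lf → j ≤ k := by
    intro x
    obtain ⟨N, hN⟩ := h3 x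
    obtain ⟨k, hk1, hk2⟩ := Int.exists_greatest_of_bdd (P := fun k : ℤ => (T ^ (-k)) x ∉ Lf)
      ⟨(N : ℤ), fun z hz => by
        by_contra hlt
        push Not at hlt
        exact hz (hmono' N z x hlt.le (hN N le_rfl).1)⟩
      ⟨-(N : ℤ), by
        rw [neg_neg]
        exact (hN N le_rfl).2⟩
    exact ⟨k, hk1, hk2⟩
  choose g hg1 hg2 using hex
  have hchar : ∀ (x : V) (j : ℤ), (T ^ (-j)) x ∉ Lf ↔ j ≤ g x := by
    intro x j
    exact ⟨hg2 x j, fun h hm => hg1 x (hmono' j (g x) x h hm)⟩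
  have huniq : ∀ (x : V) (m : ℤ), (∀ j : ℤ, (T ^ (-j)) x ∉ Lf ↔ j ≤ m) → g x = m := by
    intro x m h
    apply le_antisymm
    · exact (h _).1 (hg1 x)
    · exact hg2 x m ((h m).2 le_rfl)
  refine ⟨g, ⟨?_, ?_, ?_, ?_⟩⟩
  · intro x
    apply huniq
    intro j
    have e : (T ^ (-j)) (T x) = (T ^ (-(j - 1))) x := by
      have := zz T (-j) 1 x
      rw [zpow_one] at this
      rw [this]
      congr 2
      ring
    rw [e, hchar]
    omega
  · apply le_antisymm
    · by_contra hn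
      push Not at hn
      exact ((hchar v 1).2 (by omega)) (hb v (Or.inl rfl))
    · apply hg2
      simpa using h1
  · intro x y hxy hx hy
    apply huniq
    intro j
    rw [← hchar y j]
    exact not_congr (edge hS h2 j hxy (hx j).symm (hy j).symm)
  · intro x hx
    have hxo : ∀ n : ℤ, x ≠ (T ^ n) v := by
      rintro n rfl
      exact hx (hS.nad n v)
    have hvn : ∀ n : ℤ, n ≠ 0 → v ≠ (T ^ n) v := fun n hn h => hn (hS.free n v h.symm)
    have e1 := edge hS h2 1 hx (hvn 1 one_ne_zero) (hxo 1)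
    have e2 := edge hS h2 (-1) hx (hvn (-1) (by norm_num)) (hxo (-1))
    have f1 : (T ^ (-1 : ℤ)) x ∈ Lf := e1.1 (hb v (Or.inl rfl))
    have f2 : (T ^ (-(-1 : ℤ))) x ∉ Lf := by
      rw [← e2, neg_neg]
      exact ha
    have g1 : ¬ (1 ≤ g x) := fun h => (hchar x 1).2 h f1
    have g2 : -1 ≤ g x := (hchar x (-1)).1 f2
    omega

end Pool.Agent.Q251.TG
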